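import Pool.Agent.H71.Nse4

set_option autoImplicit false

namespace Pool.Agent.Results.MP_a0aa5b_al.CI

/-- The series `1 + x^j + x^(2j) + ...`, the inverse of `1 - x^j` for `j ≥ 1`. -/
noncomputable def geo (j : ℕ) : PowerSeries ℤ := PowerSeries.mk fun m => if j ∣ m then 1 else 0

/-- `(1 - x^j)^z` for an integer exponent `z`. -/
noncomputable def fac (j : ℕ) (z : ℤ) : PowerSeries ℤ :=
  (1 - PowerSeries.X ^ j) ^ z.toNat * geo j ^ (-z).toNat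

open Classical in
/-- The series `∑_{s ∈ S} x^s`. -/
noncomputable def ind (S : AddSubmonoid ℕ) : PowerSeries ℤ :=
  PowerSeries.mk fun s => if s ∈ S then 1 else 0

/-- `ex` is the exponent sequence of `S`: the product of the `(1 - x^j)^(ex j)`, `j ≥ 1`, converges
coefficientwise to `P_S = (1 - x) ∑_{s ∈ S} x^s`. -/
def IsExpSeq (S : AddSubmonoid ℕ) (ex : ℕ → ℤ) : Prop :=
  ∀ N M : ℕ, N ≤ M → PowerSeries.coeff N (∏ j ∈ Finset.Icc 1 M, fac j (ex j)) =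
    PowerSeries.coeff N ((1 - PowerSeries.X) * ind S)

/-- `n` enumerates without repetition the minimal generating set of `S`. -/
def IsMinGen {e : ℕ} (S : AddSubmonoid ℕ) (n : Fin e → ℕ) : Prop :=
  Function.Injective n ∧ AddSubmonoid.closure (Set.range n) = S ∧
    ∀ i, n i ∉ AddSubmonoid.closure (Set.range n \ {n i})

/-- `ρ` generates the kernel congruence of `a ↦ ∑ a_i n_i`. -/
def IsPres {e : ℕ} (n : Fin e → ℕ) (ρ : Finset ((Fin e → ℕ) × (Fin e → ℕ))) : Prop :=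
  ∀ x y, addConGen (fun u v => (u, v) ∈ ρ) x y ↔ ∑ i, x i * n i = ∑ i, y i * n i

theorem result (S : AddSubmonoid ℕ) (hS : (S : Set ℕ)ᶜ.Finite) (e : ℕ) (n : Fin e → ℕ)
    (hn : IsMinGen S n) (ex : ℕ → ℤ) (hex : IsExpSeq S ex) (a b : ℕ)
    (hE : {d : ℕ | 2 ≤ d ∧ ex d ≠ 0 ∧ d ∉ Set.range n} = {a, b})
    (hab : ¬ ∃ t ∈ S, a + t = b) (hba : ¬ ∃ t ∈ S, b + t = a) :
    ∃ ρ : Finset ((Fin e → ℕ) × (Fin e → ℕ)), IsPres n ρ ∧ (∀ σ, σ ⊂ ρ → ¬ IsPres n σ) ∧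
      ρ.card = e - 1 :=
  H71.Nse.main n hn.1 S hS hn.2.1 hn.2.2 ex hex a b hE hab hba

end Pool.Agent.Results.MP_a0aa5b_al.CI
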